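import Pool.Agent.CMT.Ind

/-! Consequences of (T2) for the distribution of a tile `A`, `|A| = n`, modulo `n`. -/

namespace Pool.Agent.CMR

open Finset Pool.Agent.CMT

/-- The set of exponents `j` (shifted by one) with `Φ_{p^(j+1)} ∣ A`, `p^(j+1) ∣ M`. -/
noncomputable def EA (p M : ℕ) (A : Finset ℕ) : Finset ℕ := by
  classical
  exact (range (M.factorization p)).filter
    (fun j => Polynomial.cyclotomic (p ^ (j + 1)) ℤ ∣ mask A)

theorem mem_EA {p M : ℕ} {A : Finset ℕ} {j : ℕ} :
    j ∈ EA p M A ↔ j < M.factorization p ∧ Polynomial.cyclotomic (p ^ (j + 1)) ℤ ∣ mask A := by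
  classical
  unfold EA
  rw [mem_filter, mem_range]

/-- (T1): the number of `j` with `Φ_{p^j} ∣ A` is the exponent of `p` in `|A|`. -/
theorem card_EA {p M : ℕ} (hp : p.Prime) {A T : Finset ℕ} (h : Til M A T) :
    (EA p M A).card = A.card.factorization p := by
  classical
  have hM0 : M ≠ 0 := h.1.ne'
  have hc := til_card h
  have hA0 : A.card ≠ 0 := by
    intro h0; rw [h0, zero_mul] at hc; exact hM0 hc.symm
  have hT0 : T.card ≠ 0 := by
    intro h0; rw [h0, mul_zero] at hc; exact hM0 hc.symm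
  have h1 : p ^ (EA p M A).card ∣ A.card := t1_pow_dvd hp A _ fun j hj => (mem_EA.1 hj).2
  have h2 : p ^ (EA p M T).card ∣ T.card := t1_pow_dvd hp T _ fun j hj => (mem_EA.1 hj).2
  have h3 := (hp.pow_dvd_iff_le_factorization hA0).mp h1
  have h4 := (hp.pow_dvd_iff_le_factorization hT0).mp h2
  have h5 : range (M.factorization p) ⊆ EA p M A ∪ EA p M T := by
    intro j hj
    have hjk : j + 1 ≤ M.factorization p := mem_range.mp hj
    have hd : p ^ (j + 1) ∣ M := (hp.pow_dvd_iff_le_factorization hM0).mpr hjk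
    have hne : p ^ (j + 1) ≠ 1 := (Nat.one_lt_pow (by omega) hp.one_lt).ne'
    rcases root_or h hd hne with h6 | h6
    · exact mem_union_left _ (mem_EA.2 ⟨mem_range.1 hj, h6⟩)
    · exact mem_union_right _ (mem_EA.2 ⟨mem_range.1 hj, h6⟩)
  have h6 := card_le_card h5
  rw [card_range] at h6
  have h7 := card_union_le (EA p M A) (EA p M T)
  have h8 : M.factorization p = A.card.factorization p + T.card.factorization p := by
    rw [← hc, Nat.factorization_mul hA0 hT0]; rfl
  omega

/-- `p` is bad for `A`: some `Φ_{p^m}`, `p^m ∣ M`, `m` larger than the exponent of `p` in `|A|`,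
divides `A`. -/
def Bad (M : ℕ) (A : Finset ℕ) (p : ℕ) : Prop :=
  ∃ m, A.card.factorization p < m ∧ p ^ m ∣ M ∧ Polynomial.cyclotomic (p ^ m) ℤ ∣ mask A

theorem good_dvd {p M : ℕ} (hp : p.Prime) {A T : Finset ℕ} (h : Til M A T)
    (hb : ¬ Bad M A p) {i : ℕ} (hi : 1 ≤ i) (hi2 : i ≤ A.card.factorization p) :
    Polynomial.cyclotomic (p ^ i) ℤ ∣ mask A := by
  have hM0 : M ≠ 0 := h.1.ne'
  have hsub : EA p M A ⊆ range (A.card.factorization p) := by
    intro j hj
    rw [mem_range]
    by_contra hcon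
    apply hb
    have h1 := mem_EA.1 hj
    exact ⟨j + 1, by omega, (hp.pow_dvd_iff_le_factorization hM0).mpr h1.1, h1.2⟩
  have heq : EA p M A = range (A.card.factorization p) := by
    apply eq_of_subset_of_card_le hsub
    rw [card_range, card_EA hp h]
  have hmem : i - 1 ∈ EA p M A := by
    rw [heq, mem_range]; omega
  have := (mem_EA.1 hmem).2
  rwa [Nat.sub_add_cancel hi] at this

/-- A form of (T2) for a single `d`. -/
theorem t2' {M : ℕ} {A T : Finset ℕ} (h : Til M A T) {d : ℕ} (hd : d ∣ M) (hd1 : d ≠ 1)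
    (H : ∀ p, p.Prime → p ∣ d → Polynomial.cyclotomic (p ^ d.factorization p) ℤ ∣ mask A) :
    Polynomial.cyclotomic d ℤ ∣ mask A := by
  classical
  have hM0 : M ≠ 0 := h.1.ne'
  have hd0 : d ≠ 0 := fun h0 => hM0 (by rw [h0] at hd; exact Nat.eq_zero_of_zero_dvd hd)
  have hinj : Set.InjOn (fun p => p ^ d.factorization p) (d.primeFactors : Set ℕ) := by
    intro p hp q hq hpq
    have hp' := Nat.prime_of_mem_primeFactors hp
    have hq' := Nat.prime_of_mem_primeFactors hq
    have h1 : p ∣ p ^ d.factorization p :=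
      dvd_pow_self p (hp'.factorization_pos_of_dvd hd0 (Nat.dvd_of_mem_primeFactors hp)).ne'
    rw [show p ^ d.factorization p = q ^ d.factorization q from hpq] at h1
    exact (Nat.prime_dvd_prime_iff_eq hp' hq').1 (hp'.dvd_of_dvd_pow h1)
  have hprod : ∏ s ∈ d.primeFactors.image (fun p => p ^ d.factorization p), s = d := by
    rw [prod_image hinj]
    exact Nat.prod_factorization_pow_eq_self hd0
  have hne : (d.primeFactors.image (fun p => p ^ d.factorization p)).Nonempty := by
    rw [image_nonempty, Nat.nonempty_primeFactors]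
    omega
  have key := t2 h (d.primeFactors.image (fun p => p ^ d.factorization p)) hne ?_ ?_ ?_ ?_
  · rwa [hprod] at key
  · intro s hs
    obtain ⟨p, hp, rfl⟩ := mem_image.1 hs
    have hp' := Nat.prime_of_mem_primeFactors hp
    exact hp'.isPrimePow.pow
      (hp'.factorization_pos_of_dvd hd0 (Nat.dvd_of_mem_primeFactors hp)).ne'
  · intro s hs
    obtain ⟨p, hp, rfl⟩ := mem_image.1 hs
    exact (Nat.ordProj_dvd d p).trans hd
  · intro s hs
    obtain ⟨p, hp, rfl⟩ := mem_image.1 hs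
    exact H p (Nat.prime_of_mem_primeFactors hp) (Nat.dvd_of_mem_primeFactors hp)
  · intro s hs t ht hst
    obtain ⟨p, hp, rfl⟩ := mem_image.1 hs
    obtain ⟨q, hq, rfl⟩ := mem_image.1 ht
    have hpq : p ≠ q := by rintro rfl; exact hst rfl
    exact Nat.Coprime.pow _ _ ((Nat.coprime_primes (Nat.prime_of_mem_primeFactors hp)
      (Nat.prime_of_mem_primeFactors hq)).2 hpq)

/-- If `Φ_d ∣ A` and `z` has order `d` then `A(z) = 0`. -/
theorem eval_zero {A : Finset ℕ} {z : ℂ} {d : ℕ} (hd : 0 < d) (hz : orderOf z = d)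
    (h : Polynomial.cyclotomic d ℤ ∣ mask A) : ∑ a ∈ A, z ^ a = 0 := by
  have hprim : IsPrimitiveRoot z d := by
    rw [← hz]; exact IsPrimitiveRoot.orderOf z
  obtain ⟨g, hg⟩ := h
  have h1 : Polynomial.aeval z (mask A) = 0 := by
    rw [hg, map_mul]
    have : Polynomial.aeval z (Polynomial.cyclotomic d ℤ) = 0 := by
      rw [Polynomial.aeval_def, Polynomial.eval₂_eq_eval_map, Polynomial.map_cyclotomic]
      exact hprim.isRoot_cyclotomic hd
    rw [this, zero_mul]
  have h2 : Polynomial.aeval z (mask A) = ∑ a ∈ A, z ^ a := by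
    unfold mask; rw [map_sum]; simp
  rw [← h2, h1]

/-- Fourier inversion on `ℤ_L`. -/
theorem finv {L : ℕ} (hL : 0 < L) (A : Finset ℕ) (g : ℕ → ℂ) (ξ : ℂ) (hξ : IsPrimitiveRoot ξ L)
    (c : ℕ) (hc : c < L) :
    (L : ℂ) * ∑ a ∈ A.filter (fun a => a % L = c), g a =
      ∑ i ∈ range L, ξ ^ (i * (L - c)) * ∑ a ∈ A, g a * (ξ ^ i) ^ a := by
  have h1 : ∑ i ∈ range L, ξ ^ (i * (L - c)) * ∑ a ∈ A, g a * (ξ ^ i) ^ a =
      ∑ a ∈ A, g a * ∑ i ∈ range L, (ξ ^ (a + (L - c))) ^ i := by
    simp_rw [Finset.mul_sum]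
    rw [sum_comm]
    refine sum_congr rfl fun a _ => sum_congr rfl fun i _ => ?_
    rw [← pow_mul, ← pow_mul, mul_left_comm, ← pow_add]
    congr 2
    ring
  rw [h1, mul_sum, sum_filter]
  refine sum_congr rfl fun a _ => ?_
  have h2 : ξ ^ (a + (L - c)) = 1 ↔ a % L = c := by
    rw [hξ.pow_eq_one_iff_dvd, ← Nat.add_sub_assoc hc.le]
    constructor
    · intro hdvd
      have h3 : (a + L - c) % L = 0 := Nat.mod_eq_zero_of_dvd hdvd
      have h4 : (a + L - c + c) % L = c := by
        rw [Nat.add_mod, h3, zero_add, Nat.mod_mod, Nat.mod_eq_of_lt hc]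
      rw [Nat.sub_add_cancel (by omega), Nat.add_mod_right] at h4
      exact h4
    · intro h3
      have h4 : a + L - c = L * (a / L + 1) := by
        have := Nat.div_add_mod a L
        rw [h3] at this
        have h5 : a + L = L * (a / L + 1) + c := by rw [mul_add, mul_one]; omega
        omega
      rw [h4]
      exact dvd_mul_right _ _
  by_cases ha : a % L = c
  · rw [if_pos ha, h2.2 ha]
    simp
    ring
  · rw [if_neg ha]
    have h3 : ξ ^ (a + (L - c)) ≠ 1 := fun h => ha (h2.1 h)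
    have h4 : (ξ ^ (a + (L - c)) - 1) * ∑ i ∈ range L, (ξ ^ (a + (L - c))) ^ i = 0 := by
      rw [mul_geom_sum, ← pow_mul, mul_comm, pow_mul, hξ.pow_eq_one, one_pow, sub_self]
    rcases mul_eq_zero.1 h4 with h5 | h5
    · exact absurd (sub_eq_zero.1 h5) h3
    · rw [h5, mul_zero]

end Pool.Agent.CMR
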