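import Pool.Agent.CMR.Basic

/-! A tile `A` of `ℤ_M`, `|A| = n`: either `A` is a complete residue system mod `n`, or every
residue class mod `n` which meets `A` contains at least two elements of `A`. -/

namespace Pool.Agent.CMR

open Finset Pool.Agent.CMT

theorem fact_prod (s : Finset ℕ) (hs : ∀ p ∈ s, p.Prime) (e : ℕ → ℕ) (q : ℕ) (hq : q.Prime) :
    (∏ p ∈ s, p ^ e p).factorization q = if q ∈ s then e q else 0 := by
  classical
  rw [Nat.factorization_prod (fun p hp => pow_ne_zero _ (hs p hp).ne_zero)]
  rw [Finsupp.finsetSum_apply]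
  have h1 : ∀ p ∈ s, (p ^ e p).factorization q = if q = p then e p else 0 := by
    intro p hp
    rw [(hs p hp).factorization_pow, Finsupp.single_apply]
    simp only [eq_comm]
  rw [sum_congr rfl h1, sum_ite_eq]

theorem crs_of_good {M : ℕ} {A T : Finset ℕ} (h : Til M A T)
    (hg : ∀ p, p.Prime → p ∣ A.card → ¬ Bad M A p) {a b : ℕ} (ha : a ∈ A) (hb : b ∈ A)
    (hab : a % A.card = b % A.card) : a = b := by
  have hM0 : M ≠ 0 := h.1.ne'
  have hc := til_card h
  have hn0 : A.card ≠ 0 := by
    intro h0; rw [h0, zero_mul] at hc; exact hM0 hc.symm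
  have hnM : A.card ∣ M := ⟨_, hc.symm⟩
  set n := A.card with hn
  have hnpos : 0 < n := Nat.pos_of_ne_zero hn0
  have hξ : IsPrimitiveRoot (Complex.exp (2 * Real.pi * Complex.I / n)) n :=
    Complex.isPrimitiveRoot_exp n hn0
  set ξ := Complex.exp (2 * Real.pi * Complex.I / n)
  have hzero : ∀ i, i < n → i ≠ 0 → ∑ a ∈ A, (ξ ^ i) ^ a = 0 := by
    intro i hi hi0
    have hu : (ξ ^ i) ^ n = 1 := by
      rw [← pow_mul, mul_comm, pow_mul, hξ.pow_eq_one, one_pow]
    have hu1 : ξ ^ i ≠ 1 := by
      intro h1
      have := (hξ.pow_eq_one_iff_dvd i).1 h1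
      exact absurd (Nat.le_of_dvd (Nat.pos_of_ne_zero hi0) this) (by omega)
    have hdn : orderOf (ξ ^ i) ∣ n := orderOf_dvd_of_pow_eq_one hu
    have hd0 : 0 < orderOf (ξ ^ i) := Nat.pos_of_dvd_of_pos hdn hnpos
    have hd1 : orderOf (ξ ^ i) ≠ 1 := by
      intro h1; exact hu1 (orderOf_eq_one_iff.1 h1)
    refine eval_zero hd0 rfl (t2' h (hdn.trans hnM) hd1 ?_)
    intro p hp hpd
    refine good_dvd hp h (hg p hp (hpd.trans hdn)) ?_ ?_
    · exact hp.factorization_pos_of_dvd hd0.ne' hpd
    · exact (Nat.factorization_le_iff_dvd hd0.ne' hn0).2 hdn p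
  have hcount : ((A.filter (fun x => x % n = a % n)).card : ℂ) = 1 := by
    have h1 := finv hnpos A (fun _ => (1 : ℂ)) ξ hξ (a % n) (Nat.mod_lt _ hnpos)
    have h2 : ∑ i ∈ range n, ξ ^ (i * (n - a % n)) * ∑ x ∈ A, (1 : ℂ) * (ξ ^ i) ^ x = n := by
      rw [sum_eq_single 0]
      · simp only [zero_mul, pow_zero, one_pow, one_mul, mul_one, sum_const, nsmul_eq_mul]
        rw [hn]
      · intro i hi hi0
        simp only [one_mul]
        rw [hzero i (mem_range.1 hi) hi0, mul_zero]
      · intro h0
        exact absurd (mem_range.2 hnpos) h0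
    rw [h2] at h1
    simp only [sum_const, nsmul_eq_mul, mul_one] at h1
    have hnC : (n : ℂ) ≠ 0 := by exact_mod_cast hn0
    exact mul_left_cancel₀ hnC (by rw [h1, mul_one])
  have hcount' : (A.filter (fun x => x % n = a % n)).card = 1 := by exact_mod_cast hcount
  obtain ⟨c, hcc⟩ := card_eq_one.1 hcount'
  have h1 : a ∈ A.filter (fun x => x % n = a % n) := mem_filter.2 ⟨ha, rfl⟩
  have h2 : b ∈ A.filter (fun x => x % n = a % n) := mem_filter.2 ⟨hb, hab.symm⟩
  rw [hcc, mem_singleton] at h1 h2
  rw [h1, h2]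

theorem two_of_bad {M : ℕ} {A T : Finset ℕ} (h : Til M A T)
    (hbad : ∃ p, p.Prime ∧ Bad M A p) {a : ℕ} (ha : a ∈ A) :
    ∃ b ∈ A, b ≠ a ∧ b % A.card = a % A.card := by
  classical
  by_contra hcon
  push Not at hcon
  have hM0 : M ≠ 0 := h.1.ne'
  have hc := til_card h
  have hn0 : A.card ≠ 0 := by
    intro h0; rw [h0, zero_mul] at hc; exact hM0 hc.symm
  have hnM : A.card ∣ M := ⟨_, hc.symm⟩
  set n := A.card with hn
  -- the exponents
  let m : ℕ → ℕ := fun p => if hb : Bad M A p then hb.choose else 0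
  have hm : ∀ p, Bad M A p → n.factorization p < m p ∧ p ^ m p ∣ M ∧
      Polynomial.cyclotomic (p ^ m p) ℤ ∣ mask A := by
    intro p hb
    have : m p = hb.choose := dif_pos hb
    rw [this]
    exact hb.choose_spec
  let eK : ℕ → ℕ := fun p => if Bad M A p then m p else 0
  let eL : ℕ → ℕ := fun p => if Bad M A p then m p - 1 else n.factorization p
  let eE : ℕ → ℕ := fun p => if Bad M A p then m p else n.factorization p
  have hpr : ∀ p ∈ M.primeFactors, p.Prime := fun p hp => Nat.prime_of_mem_primeFactors hp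
  set K := ∏ p ∈ M.primeFactors, p ^ eK p with hK
  set L := ∏ p ∈ M.primeFactors, p ^ eL p with hL
  set E := ∏ p ∈ M.primeFactors, p ^ eE p with hE
  have hK0 : K ≠ 0 := prod_ne_zero_iff.2 fun p hp => pow_ne_zero _ (hpr p hp).ne_zero
  have hL0 : L ≠ 0 := prod_ne_zero_iff.2 fun p hp => pow_ne_zero _ (hpr p hp).ne_zero
  have hE0 : E ≠ 0 := prod_ne_zero_iff.2 fun p hp => pow_ne_zero _ (hpr p hp).ne_zero
  have fK : ∀ q, q.Prime → K.factorization q = if q ∈ M.primeFactors then eK q else 0 :=
    fun q hq => fact_prod _ hpr _ q hq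
  have fL : ∀ q, q.Prime → L.factorization q = if q ∈ M.primeFactors then eL q else 0 :=
    fun q hq => fact_prod _ hpr _ q hq
  have fE : ∀ q, q.Prime → E.factorization q = if q ∈ M.primeFactors then eE q else 0 :=
    fun q hq => fact_prod _ hpr _ q hq
  have hbM : ∀ p, p.Prime → Bad M A p → p ∈ M.primeFactors := by
    intro p hp hb
    refine Nat.mem_primeFactors.2 ⟨hp, ?_, hM0⟩
    exact (dvd_pow_self p (by have := (hm p hb).1; omega)).trans (hm p hb).2.1
  have hnfac : ∀ q, q.Prime → q ∉ M.primeFactors → n.factorization q = 0 := by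
    intro q hq hqM
    apply Nat.factorization_eq_zero_of_not_dvd
    intro hqn
    exact hqM (Nat.mem_primeFactors.2 ⟨hq, hqn.trans hnM, hM0⟩)
  have hEM : E ∣ M := by
    rw [← Nat.factorization_prime_le_iff_dvd hE0 hM0]
    intro q hq
    rw [fE q hq]
    split_ifs with h1
    · show (if Bad M A q then m q else n.factorization q) ≤ _
      split_ifs with h2
      · exact (hq.pow_dvd_iff_le_factorization hM0).1 (hm q h2).2.1
      · exact (Nat.factorization_prime_le_iff_dvd hn0 hM0).2 hnM q hq
    · exact Nat.zero_le _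
  have hnL : n ∣ L := by
    rw [← Nat.factorization_prime_le_iff_dvd hn0 hL0]
    intro q hq
    rw [fL q hq]
    split_ifs with h1
    · show _ ≤ (if Bad M A q then m q - 1 else n.factorization q)
      split_ifs with h2
      · have := (hm q h2).1; omega
      · exact le_refl _
    · rw [hnfac q hq h1]
  have hLE : L ∣ E := by
    rw [← Nat.factorization_prime_le_iff_dvd hL0 hE0]
    intro q hq
    rw [fL q hq, fE q hq]
    split_ifs with h1
    · show (if Bad M A q then m q - 1 else n.factorization q) ≤
        (if Bad M A q then m q else n.factorization q)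
      split_ifs with h2
      · omega
      · exact le_refl _
    · exact le_refl _
  have hKE : K ∣ E := by
    rw [← Nat.factorization_prime_le_iff_dvd hK0 hE0]
    intro q hq
    rw [fK q hq, fE q hq]
    split_ifs with h1
    · show (if Bad M A q then m q else 0) ≤
        (if Bad M A q then m q else n.factorization q)
      split_ifs with h2
      · exact le_refl _
      · exact Nat.zero_le _
    · exact le_refl _
  have hw : IsPrimitiveRoot (Complex.exp (2 * Real.pi * Complex.I / K)) K :=
    Complex.isPrimitiveRoot_exp K hK0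
  set w := Complex.exp (2 * Real.pi * Complex.I / K)
  have hzero : ∀ u : ℂ, u ^ L = 1 → ∑ x ∈ A, (w * u) ^ x = 0 := by
    intro u hu
    have hzE : (w * u) ^ E = 1 := by
      obtain ⟨c1, hc1⟩ := hKE
      obtain ⟨c2, hc2⟩ := hLE
      rw [mul_pow]
      nth_rewrite 1 [hc1]
      rw [hc2, pow_mul, pow_mul, hw.pow_eq_one, hu, one_pow, one_pow, one_mul]
    have hdE : orderOf (w * u) ∣ E := orderOf_dvd_of_pow_eq_one hzE
    have hd0 : 0 < orderOf (w * u) := Nat.pos_of_dvd_of_pos hdE (Nat.pos_of_ne_zero hE0)
    set d := orderOf (w * u) with hd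
    have hdle : ∀ q, q.Prime → d.factorization q ≤ E.factorization q :=
      fun q hq => (Nat.factorization_prime_le_iff_dvd hd0.ne' hE0).2 hdE q hq
    have hdb : ∀ p, p.Prime → Bad M A p → d.factorization p = m p := by
      intro p hp hb
      have hpM := hbM p hp hb
      have hEp : E.factorization p = m p := by
        rw [fE p hp, if_pos hpM]
        exact if_pos hb
      have hmp : 0 < m p := by have := (hm p hb).1; omega
      refine le_antisymm (hEp ▸ hdle p hp) ?_
      by_contra hlt
      push Not at hlt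
      have hpE : p ∣ E := by
        apply Nat.dvd_of_factorization_pos
        rw [hEp]; omega
      obtain ⟨E', hE'⟩ := hpE
      have hE'0 : E' ≠ 0 := by rintro rfl; exact hE0 (by rw [hE', mul_zero])
      have fE' : ∀ q, q.Prime → E'.factorization q + (if q = p then 1 else 0) =
          E.factorization q := by
        intro q hq
        rw [hE', Nat.factorization_mul hp.ne_zero hE'0, Finsupp.add_apply,
          hp.factorization, Finsupp.single_apply]
        simp only [eq_comm (a := p)]
        omega
      have h1 : d ∣ E' := by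
        rw [← Nat.factorization_prime_le_iff_dvd hd0.ne' hE'0]
        intro q hq
        have h2 := fE' q hq
        have h3 := hdle q hq
        by_cases hqp : q = p
        · subst hqp
          rw [if_pos rfl] at h2
          omega
        · rw [if_neg hqp] at h2
          omega
      have h2 : L ∣ E' := by
        rw [← Nat.factorization_prime_le_iff_dvd hL0 hE'0]
        intro q hq
        have h2 := fE' q hq
        by_cases hqp : q = p
        · subst hqp
          rw [if_pos rfl] at h2
          rw [fL q hq, if_pos hpM]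
          show (if Bad M A q then m q - 1 else n.factorization q) ≤ _
          rw [if_pos hb]
          omega
        · rw [if_neg hqp] at h2
          have h3 := (Nat.factorization_prime_le_iff_dvd hL0 hE0).2 hLE q hq
          omega
      have h3 : (w * u) ^ E' = 1 := orderOf_dvd_iff_pow_eq_one.1 h1
      have h4 : u ^ E' = 1 := by
        obtain ⟨c2, hc2⟩ := h2
        rw [hc2, pow_mul, hu, one_pow]
      rw [mul_pow, h4, mul_one] at h3
      have h5 : K ∣ E' := (hw.pow_eq_one_iff_dvd E').1 h3
      have h6 := (Nat.factorization_prime_le_iff_dvd hK0 hE'0).2 h5 p hp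
      have h7 := fE' p hp
      rw [if_pos rfl] at h7
      rw [fK p hp, if_pos hpM] at h6
      have h8 : eK p = m p := if_pos hb
      omega
    obtain ⟨p0, hp0, hb0⟩ := hbad
    have hd1 : d ≠ 1 := by
      intro h1
      have h2 := hdb p0 hp0 hb0
      rw [h1] at h2
      have h3 := (hm p0 hb0).1
      simp at h2
      omega
    refine eval_zero hd0 rfl (t2' h (hdE.trans hEM) hd1 ?_)
    intro p hp hpd
    by_cases hb : Bad M A p
    · rw [hdb p hp hb]
      exact (hm p hb).2.2
    · refine good_dvd hp h hb (hp.factorization_pos_of_dvd hd0.ne' hpd) ?_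
      have h1 := hdle p hp
      rw [fE p hp] at h1
      show d.factorization p ≤ n.factorization p
      split_ifs at h1 with h2
      · have h3 : eE p = n.factorization p := if_neg hb
        omega
      · omega
  have hLpos : 0 < L := Nat.pos_of_ne_zero hL0
  have hξ : IsPrimitiveRoot (Complex.exp (2 * Real.pi * Complex.I / L)) L :=
    Complex.isPrimitiveRoot_exp L hL0
  set ξ := Complex.exp (2 * Real.pi * Complex.I / L)
  have hsum := finv hLpos A (fun x => w ^ x) ξ hξ (a % L) (Nat.mod_lt _ hLpos)
  have hfil : A.filter (fun x => x % L = a % L) = {a} := by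
    ext x
    rw [mem_filter, mem_singleton]
    constructor
    · rintro ⟨hx, hxL⟩
      by_contra hne
      apply hcon x hx hne
      obtain ⟨c, hc'⟩ := hnL
      rw [← Nat.mod_mod_of_dvd x ⟨c, hc'⟩, ← Nat.mod_mod_of_dvd a ⟨c, hc'⟩, hxL]
    · rintro rfl
      exact ⟨ha, rfl⟩
  rw [hfil, sum_singleton] at hsum
  rw [sum_eq_zero] at hsum
  · have hw0 : w ≠ 0 := Complex.exp_ne_zero _
    have hLC : (L : ℂ) ≠ 0 := by exact_mod_cast hL0
    exact (mul_ne_zero hLC (pow_ne_zero _ hw0)) hsum
  · intro i _
    have h1 : ∑ x ∈ A, w ^ x * (ξ ^ i) ^ x = ∑ x ∈ A, (w * ξ ^ i) ^ x :=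
      sum_congr rfl fun x _ => (mul_pow _ _ _).symm
    rw [h1, hzero, mul_zero]
    rw [← pow_mul, mul_comm, pow_mul, hξ.pow_eq_one, one_pow]

end Pool.Agent.CMR
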