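import Pool.Agent.CMR.Main

/-! Translation to subsets of `ZMod ω`. -/

namespace Pool.Agent.CMR

open Finset Pool.Agent.CMT

/-- `A` is a direct factor of `ℤ_ω`: for some `C ⊆ ℤ_ω`, every `g ∈ ℤ_ω` is `a + c` for exactly
one pair `(a, c) ∈ A × C`. -/
def IsDirectFactor (ω : ℕ) (A : Finset (ZMod ω)) : Prop :=
  ∃ C : Finset (ZMod ω), ∀ g : ZMod ω,
    ∃! p : ZMod ω × ZMod ω, p.1 ∈ A ∧ p.2 ∈ C ∧ p.1 + p.2 = g

/-- `S ⊆ ℤ_ω` is a complete set of residues modulo `n` (used for `n ∣ ω`): it has `n` elements and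
they are pairwise incongruent modulo `n` (`x.val` is the representative of `x` in `[0, ω)`). -/
def IsCompleteResidues (ω n : ℕ) (S : Finset (ZMod ω)) : Prop :=
  S.card = n ∧ ∀ x ∈ S, ∀ y ∈ S, x.val ≡ y.val [MOD n] → x = y

theorem til_of_factor {ω : ℕ} [NeZero ω] {A C : Finset (ZMod ω)}
    (h : ∀ g : ZMod ω, ∃! p : ZMod ω × ZMod ω, p.1 ∈ A ∧ p.2 ∈ C ∧ p.1 + p.2 = g) :
    Til ω (A.image ZMod.val) (C.image ZMod.val) := by
  classical
  refine ⟨Nat.pos_of_ne_zero (NeZero.ne ω), fun r => ?_⟩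
  obtain ⟨⟨a, c⟩, ⟨ha, hc, hac⟩, huniq⟩ := h r
  rw [card_eq_one]
  refine ⟨(a.val, c.val), ?_⟩
  ext ⟨x, y⟩
  simp only [mem_filter, mem_product, mem_image, mem_singleton, Prod.mk.injEq]
  constructor
  · rintro ⟨⟨⟨a', ha', rfl⟩, ⟨c', hc', rfl⟩⟩, hr⟩
    have h1 : a' + c' = r := by
      rw [← hr, Nat.cast_add, ZMod.natCast_zmod_val, ZMod.natCast_zmod_val]
    have h2 := huniq (a', c') ⟨ha', hc', h1⟩
    simp only [Prod.mk.injEq] at h2
    rw [h2.1, h2.2]
    exact ⟨rfl, rfl⟩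
  · rintro ⟨rfl, rfl⟩
    refine ⟨⟨⟨a, ha, rfl⟩, ⟨c, hc, rfl⟩⟩, ?_⟩
    rw [Nat.cast_add, ZMod.natCast_zmod_val, ZMod.natCast_zmod_val]
    exact hac

/-- A direct factor `A`, `|A| = n`, is a complete set of residues mod `n`, or every residue class
mod `n` which meets `A` contains at least two elements of `A`. -/
theorem dichotomy {ω n : ℕ} (hω : 1 ≤ ω) {A : Finset (ZMod ω)} (hA : IsDirectFactor ω A)
    (hn : A.card = n) : n ∣ ω ∧ (IsCompleteResidues ω n A ∨
      ∀ a ∈ A, ∃ b ∈ A, b ≠ a ∧ b.val ≡ a.val [MOD n]) := by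
  classical
  haveI : NeZero ω := ⟨by omega⟩
  obtain ⟨C, hC⟩ := hA
  have h := til_of_factor hC
  have hcardA : (A.image ZMod.val).card = n := by
    rw [card_image_of_injective _ (ZMod.val_injective ω), hn]
  have hc := til_card h
  rw [hcardA] at hc
  refine ⟨⟨_, hc.symm⟩, ?_⟩
  by_cases hb : ∃ p, p.Prime ∧ Bad ω (A.image ZMod.val) p
  · right
    intro a ha
    obtain ⟨b, hb1, hb2, hb3⟩ := two_of_bad h hb (mem_image_of_mem ZMod.val ha)
    rw [hcardA] at hb3
    obtain ⟨b', hb', rfl⟩ := mem_image.1 hb1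
    exact ⟨b', hb', fun h0 => hb2 (by rw [h0]), hb3⟩
  · left
    push Not at hb
    refine ⟨hn, fun x hx y hy hxy => ?_⟩
    apply ZMod.val_injective ω
    refine crs_of_good h (fun p hp _ => hb p hp) (mem_image_of_mem ZMod.val hx)
      (mem_image_of_mem ZMod.val hy) ?_
    rw [hcardA]
    exact hxy

/-- The number of residues mod `n` met by `A` is at most `n / 2`, unless `A` is complete. -/
theorem card_le_half {ω n : ℕ} {A : Finset (ZMod ω)} (hn : A.card = n)
    (h : ∀ a ∈ A, ∃ b ∈ A, b ≠ a ∧ b.val ≡ a.val [MOD n]) :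
    2 * (A.image (fun x => x.val % n)).card ≤ n := by
  classical
  have h1 : A.card = ∑ r ∈ A.image (fun x => x.val % n),
      (A.filter (fun x => x.val % n = r)).card :=
    card_eq_sum_card_fiberwise (fun x hx => mem_coe.2 (mem_image_of_mem _ (mem_coe.1 hx)))
  have h2 : ∀ r ∈ A.image (fun x => x.val % n), 2 ≤ (A.filter (fun x => x.val % n = r)).card := by
    intro r hr
    obtain ⟨a, ha, rfl⟩ := mem_image.1 hr
    obtain ⟨b, hb, hne, hab⟩ := h a ha
    rw [← Nat.lt_iff_add_one_le, one_lt_card]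
    exact ⟨a, mem_filter.2 ⟨ha, rfl⟩, b, mem_filter.2 ⟨hb, hab⟩, fun h0 => hne h0.symm⟩
  have h3 := sum_le_sum h2
  rw [sum_const, smul_eq_mul, ← h1, hn] at h3
  omega

theorem main {ω n : ℕ} (hω : 1 ≤ ω) {A B : Finset (ZMod ω)} (hA : IsDirectFactor ω A)
    (hn : A.card = n) (hB : IsCompleteResidues ω n B) (hAB : n + 1 ≤ 2 * (A ∩ B).card) :
    IsCompleteResidues ω n A := by
  classical
  rcases (dichotomy hω hA hn).2 with h | h
  · exact h
  · exfalso
    have h1 := card_le_half hn h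
    have h2 : (A ∩ B).card ≤ (A.image (fun x => x.val % n)).card := by
      refine card_le_card_of_injOn (fun x => x.val % n) ?_ ?_
      · intro x hx
        exact mem_coe.2 (mem_image_of_mem _ (mem_inter.1 (mem_coe.1 hx)).1)
      · intro x hx y hy hxy
        exact hB.2 x (mem_inter.1 (mem_coe.1 hx)).2 y (mem_inter.1 (mem_coe.1 hy)).2 hxy
    omega

end Pool.Agent.CMR
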